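import Pool.Agent.Lib.MP_540347_an.SC.Chain

set_option autoImplicit false

open Set InnerProductSpace Filter Topology

namespace Pool.Agent.Lib.MP_540347_an.S3

open Pool.Agent.Lib.MP_540347_an.SC

/-- Zero steps can be dropped without lowering the value. -/
lemma nz_of_chain (p c : ℝ) (J : ℕ) : ∀ w q e U W A B : ℕ → ℝ, IsChain p J w q e U W A B →
    ∃ (J' : ℕ) (w' q' e' U' W' A' B' : ℕ → ℝ), IsChain p J' w' q' e' U' W' A' B' ∧
      (∀ j < J', w' j ≠ 0) ∧ U' 0 = U 0 ∧ W' 0 = W 0 ∧
      B 0 - c ^ p * A 0 ≤ B' 0 - c ^ p * A' 0 := by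
  induction J with
  | zero =>
    intro w q e U W A B h
    exact ⟨0, w, q, e, U, W, A, B, h, by simp, rfl, rfl, le_rfl⟩
  | succ J ih =>
    intro w q e U W A B h
    obtain ⟨J', w', q', e', U', W', A', B', h', hw, hU, hW, hv⟩ :=
      ih (fun j => w (j + 1)) (fun j => q (j + 1)) (fun j => e (j + 1)) (fun j => U (j + 1))
        (fun j => W (j + 1)) (fun j => A (j + 1)) (fun j => B (j + 1))
        ⟨fun j hj => h.q_pos _ (by omega), fun j hj => h.q_lt _ (by omega), fun j => h.sgn _,
          fun j hj => h.U_succ _ (by omega), fun j hj => h.W_succ _ (by omega),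
          fun j hj => h.A_step _ (by omega), fun j hj => h.B_step _ (by omega),
          h.A_last, h.B_last⟩
    have q0 := h.q_pos 0 (by omega)
    have q1 := h.q_lt 0 (by omega)
    have hU1 := h.U_succ 0 (by omega)
    have hW1 := h.W_succ 0 (by omega)
    have hA := h.A_step 0 (by omega)
    have hB := h.B_step 0 (by omega)
    rw [zero_add] at hU hW hv hU1 hW1 hA hB
    by_cases h0 : w 0 = 0
    · rw [h0] at hU1 hW1 hA hB
      simp only [zero_mul, mul_zero, add_zero, sub_zero] at hU1 hW1 hA hB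
      rcases le_total (|W 0| ^ p - c ^ p * |U 0| ^ p) (B' 0 - c ^ p * A' 0) with hle | hle
      · refine ⟨J', w', q', e', U', W', A', B', h', hw, hU.trans hU1, hW.trans hW1, ?_⟩
        rw [hA, hB]
        have a1 := mul_le_mul_of_nonneg_left hv q0.le
        have a2 := mul_le_mul_of_nonneg_left hle (sub_pos.2 q1).le
        nlinarith
      · refine ⟨0, fun _ => 0, fun _ => 0, fun _ => 1, fun _ => U 0, fun _ => W 0,
          fun _ => |U 0| ^ p, fun _ => |W 0| ^ p,
          ⟨by simp, by simp, by simp, by simp, by simp, by simp, by simp, rfl, rfl⟩, by simp,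
          rfl, rfl, ?_⟩
        rw [hA, hB]
        have a1 := mul_le_mul_of_nonneg_left (hv.trans hle) q0.le
        show _ ≤ |W 0| ^ p - c ^ p * |U 0| ^ p
        nlinarith
    · refine ⟨J' + 1, chCons (w 0) w', chCons (q 0) q', chCons (e 0) e', chCons (U 0) U',
        chCons (W 0) W', chCons (q 0 * A' 0 + (1 - q 0) * |U 0 - w 0 * q 0| ^ p) A',
        chCons (q 0 * B' 0 + (1 - q 0) * |W 0 - e 0 * w 0 * q 0| ^ p) B',
        ⟨?_, ?_, ?_, ?_, ?_, ?_, ?_, h'.A_last, h'.B_last⟩, ?_, rfl, rfl, ?_⟩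
      · rintro (_ | j) hj
        · exact q0
        · exact h'.q_pos j (by omega)
      · rintro (_ | j) hj
        · exact q1
        · exact h'.q_lt j (by omega)
      · rintro (_ | j)
        · exact h.sgn 0
        · exact h'.sgn j
      · rintro (_ | j) hj
        · exact hU.trans hU1
        · exact h'.U_succ j (by omega)
      · rintro (_ | j) hj
        · exact hW.trans hW1
        · exact h'.W_succ j (by omega)
      · rintro (_ | j) hj
        · rfl
        · exact h'.A_step j (by omega)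
      · rintro (_ | j) hj
        · rfl
        · exact h'.B_step j (by omega)
      · rintro (_ | j) hj
        · exact h0
        · exact hw j (by omega)
      · show _ ≤ q 0 * B' 0 + (1 - q 0) * |W 0 - e 0 * w 0 * q 0| ^ p -
          c ^ p * (q 0 * A' 0 + (1 - q 0) * |U 0 - w 0 * q 0| ^ p)
        rw [hA, hB]
        have a1 := mul_le_mul_of_nonneg_left hv q0.le
        nlinarith

/-- The zigzag chain has nonzero steps. -/
theorem exists_chain_nz {p c : ℝ} (hp : 1 < p) (hc0 : 0 ≤ c) (hc : c < max p (p / (p - 1)) - 1) :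
    ∃ (J : ℕ) (w q e U W A B : ℕ → ℝ), IsChain p J w q e U W A B ∧ (∀ j < J, w j ≠ 0) ∧
      |W 0| ≤ |U 0| ∧ c ^ p * A 0 < B 0 := by
  obtain ⟨J, w, q, e, U, W, A, B, h, h0, hv⟩ := exists_chain hp hc0 hc
  obtain ⟨J', w', q', e', U', W', A', B', h', hw, hU, hW, hv'⟩ := nz_of_chain p c J _ _ _ _ _ _ _ h
  exact ⟨J', w', q', e', U', W', A', B', h', hw, by rw [hU, hW]; exact h0, by linarith⟩

end Pool.Agent.Lib.MP_540347_an.S3
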