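import Pool.Agent.Lib.MP_540347_an.SC.MinP
import Pool.Agent.Lib.MP_540347_an.SC.Real

set_option autoImplicit false

open Set InnerProductSpace

namespace Pool.Agent.Lib.MP_540347_an.S3

open Pool.Agent.Lib.MP_540347_an.SC

/-- Squared distance to `(0,t)` in two chosen coordinates. -/
noncomputable def P {n : ℕ} (i₀ i₁ : Fin n) (t : ℝ) (z : E n) : ℝ := z i₀ ^ 2 + (z i₁ - t) ^ 2

/-- The logarithmic stage function. -/
noncomputable def sl {n : ℕ} (i₀ i₁ : Fin n) (t L : ℝ) (z : E n) : ℝ :=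
  1 + Real.log (P i₀ i₁ t z / 25) / L

/-- The function `|w| - w₃` of three variables; its logarithm is harmonic. -/
noncomputable def Sb {n : ℕ} (i₀ i₁ k : Fin n) (t σ β : ℝ) (z : E n) : ℝ :=
  √(P i₀ i₁ t z + (σ * z k - β) ^ 2) - (σ * z k - β)

/-- The gradient vector. -/
noncomputable def gr {n : ℕ} (f : E n → ℝ) (z : E n) : E n :=
  WithLp.toLp 2 fun i => fderiv ℝ f z (EuclideanSpace.single i (1 : ℝ))

/-- Two consecutive, almost orthogonal vectors dominate the others. -/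
def Dom {n : ℕ} (J : ℕ) (η : ℝ) (g : ℕ → E n) : Prop :=
  J = 0 ∨ ∃ l < J, (∀ i < l, ‖g i‖ ≤ η * ‖g l‖) ∧ (∀ i < J, l + 1 < i → ‖g i‖ ≤ η * ‖g (l + 1)‖) ∧
    (l + 1 < J → |inner ℝ (g l) (g (l + 1))| ≤ η * (‖g l‖ * ‖g (l + 1)‖))

/-- The geometric package. -/
structure Geo3 (n J : ℕ) (q : ℕ → ℝ) (η : ℝ) (D : Set (E n)) (s : ℕ → E n → ℝ)
    (K : E n → ℝ) : Prop where
  isOpen : IsOpen D
  conn : IsConnected D
  bdd : Bornology.IsBounded D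
  zero_mem : (0 : E n) ∈ D
  s_harm : ∀ j < J, ∀ z ∈ closure D, HarmonicAt (s j) z
  K_harm : ∀ z ∈ closure D, HarmonicAt K z
  s_zero : ∀ j < J, s j 0 = q j
  s_mem : ∀ j < J, ∀ z ∈ closure D, 0 ≤ s j z ∧ s j z ≤ 1
  dom : ∀ z ∈ D, Dom J η (fun i => gr (s i) z)
  act : ∀ z ∈ D, ∃ l ≤ J, Act J q η l (fun i => s i z)
  K_nonneg : ∀ z ∈ closure D, 0 ≤ K z
  K_zero : K 0 ≤ η
  bdry : ∀ z ∈ closure D, z ∉ D → 1 ≤ K z ∨
    (∃ l < J, Act J q η l (fun i => s i z) ∧ s l z = 0) ∨ Act J q η J (fun i => s i z)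

end Pool.Agent.Lib.MP_540347_an.S3
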