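import Pool.Agent.Lib.MP_540347_an.S3.Defs

set_option autoImplicit false

open Set InnerProductSpace Filter Topology

namespace Pool.Agent.Lib.MP_540347_an.S3

open Pool.Agent.Lib.MP_540347_an.SC

lemma two_vec {n : ℕ} (a b : E n) {η : ℝ} (h0 : 0 ≤ η) (h1 : η ≤ 1)
    (h : |inner ℝ a b| ≤ η * (‖a‖ * ‖b‖)) :
    |‖a + b‖ - √(‖a‖ ^ 2 + ‖b‖ ^ 2)| ≤ η * √(‖a‖ ^ 2 + ‖b‖ ^ 2) := by
  set N := √(‖a‖ ^ 2 + ‖b‖ ^ 2) with hN
  have hN0 : 0 ≤ N := Real.sqrt_nonneg _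
  have hN2 : N ^ 2 = ‖a‖ ^ 2 + ‖b‖ ^ 2 := Real.sq_sqrt (by positivity)
  have hs := norm_add_sq_real a b
  have h2 : 2 * (‖a‖ * ‖b‖) ≤ N ^ 2 := by nlinarith [sq_nonneg (‖a‖ - ‖b‖)]
  have h3 : η * (2 * (‖a‖ * ‖b‖)) ≤ η * N ^ 2 := mul_le_mul_of_nonneg_left h2 h0
  obtain ⟨h4, h5⟩ := abs_le.1 h
  have h6 : 0 ≤ η * η * N ^ 2 := by positivity
  have h7 : η * η * N ^ 2 ≤ η * N ^ 2 :=
    mul_le_mul_of_nonneg_right (by nlinarith) (by positivity)
  have h8 : 0 ≤ η * N ^ 2 := by positivity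
  have hu : ‖a + b‖ ≤ (1 + η) * N :=
    (abs_le_of_sq_le_sq' (by nlinarith) (by positivity)).2
  have hl : (1 - η) * N ≤ ‖a + b‖ :=
    (abs_le_of_sq_le_sq' (by nlinarith) (norm_nonneg _)).2
  rw [abs_le]
  constructor <;> nlinarith

lemma norm_sgn {n : ℕ} {s : ℝ} (hs : s = 1 ∨ s = -1) (a : E n) : ‖s • a‖ = ‖a‖ := by
  rcases hs with rfl | rfl <;> simp

lemma sum_near {n J l : ℕ} (hl : l < J) (G : ℕ → E n) {e c : ℕ → ℝ}
    (he : ∀ j, e j = 1 ∨ e j = -1) {η : ℝ} (h0 : 0 ≤ η) (h1 : η ≤ 1) (hc : ∀ i, 0 ≤ c i)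
    (hr : ∀ i < J + 1, i ≠ l → i ≠ l + 1 → ‖G i‖ ≤ c i)
    (hin : |inner ℝ (G l) (G (l + 1))| ≤ η * (‖G l‖ * ‖G (l + 1)‖)) :
    |‖∑ i ∈ Finset.range (J + 1), e i • G i‖ - √(‖G l‖ ^ 2 + ‖G (l + 1)‖ ^ 2)| ≤
      η * √(‖G l‖ ^ 2 + ‖G (l + 1)‖ ^ 2) + ∑ i ∈ Finset.range (J + 1), c i := by
  have m1 : l ∈ Finset.range (J + 1) := Finset.mem_range.2 (by omega)
  have m2 : l + 1 ∈ (Finset.range (J + 1)).erase l :=
    Finset.mem_erase.2 ⟨by omega, Finset.mem_range.2 (by omega)⟩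
  rw [← Finset.add_sum_erase _ _ m1, ← Finset.add_sum_erase _ _ m2, ← add_assoc]
  set R := ∑ i ∈ ((Finset.range (J + 1)).erase l).erase (l + 1), e i • G i with hR
  have hRn : ‖R‖ ≤ ∑ i ∈ Finset.range (J + 1), c i := by
    refine (norm_sum_le _ _).trans ((Finset.sum_le_sum (g := c) fun i hi => ?_).trans
      (Finset.sum_le_sum_of_subset_of_nonneg
        ((Finset.erase_subset _ _).trans (Finset.erase_subset _ _)) fun i _ _ => hc i))
    rw [norm_sgn (he i)]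
    obtain ⟨a1, hi⟩ := Finset.mem_erase.1 hi
    obtain ⟨a2, hi⟩ := Finset.mem_erase.1 hi
    exact hr i (Finset.mem_range.1 hi) a2 a1
  have h2 := two_vec (e l • G l) (e (l + 1) • G (l + 1)) h0 h1 (by
    rw [norm_sgn (he l), norm_sgn (he (l + 1)), real_inner_smul_left, real_inner_smul_right]
    rcases he l with h | h <;> rcases he (l + 1) with h' | h' <;> rw [h, h'] <;> simpa using hin)
  rw [norm_sgn (he l), norm_sgn (he (l + 1))] at h2
  have h3 := abs_norm_sub_norm_le (e l • G l + e (l + 1) • G (l + 1) + R)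
    (e l • G l + e (l + 1) • G (l + 1))
  rw [add_sub_cancel_left] at h3
  obtain ⟨a1, a2⟩ := abs_le.1 h2
  obtain ⟨a3, a4⟩ := abs_le.1 h3
  rw [abs_le]
  constructor <;> linarith

lemma exists_low {J : ℕ} {w : ℕ → ℝ} (hw : ∀ j < J, w j ≠ 0) :
    ∃ m : ℝ, 0 < m ∧ ∀ j < J, m ≤ |w j| := by
  induction J with
  | zero => exact ⟨1, one_pos, by simp⟩
  | succ J ih =>
    obtain ⟨m, hm, h⟩ := ih fun j hj => hw j (by omega)
    refine ⟨min m |w J|, lt_min hm (abs_pos.2 (hw J (by omega))), fun j hj => ?_⟩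
    rcases Nat.lt_succ_iff_lt_or_eq.1 hj with h' | rfl
    · exact (min_le_left _ _).trans (h j h')
    · exact min_le_right _ _

/-- Changing signs hardly changes the length when two almost orthogonal terms dominate. -/
theorem grad_ineq (n J : ℕ) {w e : ℕ → ℝ} (hw : ∀ j < J, w j ≠ 0) (he : ∀ j, e j = 1 ∨ e j = -1)
    {d : ℝ} (hd : 0 < d) (hd1 : d < 1) :
    ∃ η₀ : ℝ, 0 < η₀ ∧ ∀ η : ℝ, 0 ≤ η → η ≤ η₀ → ∀ g : ℕ → E n, Dom J η g →
      (1 - d) * ‖∑ j ∈ Finset.range J, (e j * w j) • g j‖ ≤ ‖∑ j ∈ Finset.range J, w j • g j‖ := by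
  obtain ⟨m, hm, hmw⟩ := exists_low hw
  set T := ∑ i ∈ Finset.range (J + 1), |w i| with hT
  have hT0 : 0 ≤ T := Finset.sum_nonneg fun i _ => abs_nonneg _
  set C := 1 + T / m with hC
  have hTm : 0 ≤ T / m := by positivity
  have hC0 : 0 < C := by positivity
  refine ⟨d / (2 * C), by positivity, fun η h0 hη g hg => ?_⟩
  have hηC : η * (2 * C) ≤ d := (le_div_iff₀ (by positivity)).1 hη
  have h1 : η ≤ 1 := by nlinarith [mul_nonneg h0 hTm]
  rcases hg with rfl | ⟨l, hl, hlo, hhi, hin⟩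
  · simp
  set G : ℕ → E n := fun i => if i < J then w i • g i else 0 with hG
  have hGi : ∀ i < J, G i = w i • g i := fun i hi => if_pos hi
  have hGJ : ∀ i, ¬ i < J → G i = 0 := fun i hi => if_neg hi
  set N := √(‖G l‖ ^ 2 + ‖G (l + 1)‖ ^ 2) with hN
  have hN0 : 0 ≤ N := Real.sqrt_nonneg _
  have hg : ∀ i < J, ‖G i‖ ≤ N → ‖g i‖ ≤ N / m := by
    intro i hi h
    rw [hGi i hi, norm_smul, Real.norm_eq_abs] at h
    rw [le_div_iff₀ hm]
    nlinarith [mul_le_mul_of_nonneg_right (hmw i hi) (norm_nonneg (g i))]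
  have hl1 : ‖g l‖ ≤ N / m := hg l hl (Real.le_sqrt_of_sq_le (by nlinarith [sq_nonneg ‖G (l + 1)‖]))
  have hl2 : l + 1 < J → ‖g (l + 1)‖ ≤ N / m := fun h =>
    hg _ h (Real.le_sqrt_of_sq_le (by nlinarith [sq_nonneg ‖G l‖]))
  have hc : ∀ i, 0 ≤ |w i| * (η * (N / m)) := fun i => by positivity
  have hr : ∀ i < J + 1, i ≠ l → i ≠ l + 1 → ‖G i‖ ≤ |w i| * (η * (N / m)) := by
    intro i _ a1 a2
    by_cases hi : i < J
    · rw [hGi i hi, norm_smul, Real.norm_eq_abs]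
      refine mul_le_mul_of_nonneg_left ?_ (abs_nonneg _)
      rcases lt_or_gt_of_ne a1 with h | h
      · exact (hlo i h).trans (mul_le_mul_of_nonneg_left hl1 h0)
      · exact (hhi i hi (by omega)).trans (mul_le_mul_of_nonneg_left (hl2 (by omega)) h0)
    · rw [hGJ i hi, norm_zero]; exact hc i
  have hinG : |inner ℝ (G l) (G (l + 1))| ≤ η * (‖G l‖ * ‖G (l + 1)‖) := by
    by_cases h : l + 1 < J
    · rw [hGi l hl, hGi _ h, real_inner_smul_left, real_inner_smul_right, norm_smul, norm_smul,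
        abs_mul, abs_mul, Real.norm_eq_abs, Real.norm_eq_abs]
      have := mul_le_mul_of_nonneg_left (hin h) (mul_nonneg (abs_nonneg (w l)) (abs_nonneg (w (l + 1))))
      nlinarith
    · rw [hGJ _ h]; simp
  have key : ∀ e : ℕ → ℝ, (∀ j, e j = 1 ∨ e j = -1) →
      |‖∑ j ∈ Finset.range J, (e j * w j) • g j‖ - N| ≤ η * C * N := by
    intro e he
    have h := sum_near hl G he h0 h1 hc hr hinG
    rw [Finset.sum_range_succ, hGJ J (lt_irrefl J), smul_zero, add_zero, ← Finset.sum_mul, ← hT,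
      ← hN, Finset.sum_congr rfl fun i hi => show e i • G i = (e i * w i) • g i by
        rw [hGi i (Finset.mem_range.1 hi), smul_smul]] at h
    refine h.trans (le_of_eq ?_)
    rw [hC]; ring
  obtain ⟨-, k1⟩ := abs_le.1 (key e he)
  obtain ⟨k2, -⟩ := abs_le.1 (key (fun _ => 1) fun _ => Or.inl rfl)
  simp only [one_mul] at k2
  have k3 := mul_le_mul_of_nonneg_left k1 (sub_pos.2 hd1).le
  have k4 := mul_le_mul_of_nonneg_right hηC hN0
  have k5 : 0 ≤ d * (η * C * N) := by positivity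
  nlinarith

end Pool.Agent.Lib.MP_540347_an.S3
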