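import Pool.Agent.Lib.MP_540347_an.S3.Geo
import Pool.Agent.Lib.MP_540347_an.S3.Grad
import Pool.Agent.Lib.MP_540347_an.S3.ChainNZ

set_option autoImplicit false

open Set InnerProductSpace Filter Topology

namespace Pool.Agent.Lib.MP_540347_an.S3

open Pool.Agent.Lib.MP_540347_an.SC

theorem main_aux (n : ℕ) (hn : 3 ≤ n) (p : ℝ) (hp : 1 < p) (c : ℝ) (hc0 : 0 ≤ c)
    (hc : c < max p (p / (p - 1)) - 1) {d : ℝ} (hd : 0 < d) (hd1 : d < 1) :
    ∃ (D : Set (E n)) (u v : E n → ℝ),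
      IsOpen D ∧ IsConnected D ∧ Bornology.IsBounded D ∧ (0 : E n) ∈ D ∧
      HarmonicOnNhd u D ∧ HarmonicOnNhd v D ∧
      (∀ x ∈ D, (1 - d) * ‖gr v x‖ ≤ ‖gr u x‖) ∧
      |v 0| ≤ |u 0| ∧ (∃ M : ℝ, ∀ x ∈ D, |u x| ≤ M ∧ |v x| ≤ M) ∧
      ∃ h : E n → ℝ, HarmonicOnNhd h D ∧ (∀ x ∈ D, |u x| ^ p ≤ h x) ∧
        ∃ ε : ℝ, 0 < ε ∧ ∀ g : E n → ℝ, HarmonicOnNhd g D → (∀ x ∈ D, |v x| ^ p ≤ g x) →
          c ^ p * h 0 + ε ≤ g 0 := by
  classical
  obtain ⟨J, w, q, e, U, W, A, B, hC, hw, hWU, hAB⟩ := exists_chain_nz hp hc0 hc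
  have hcp : 0 ≤ c ^ p := Real.rpow_nonneg hc0 p
  obtain ⟨γ, hγ⟩ : ∃ γ : ℝ, γ = B 0 - c ^ p * A 0 := ⟨_, rfl⟩
  have hγ0 : 0 < γ := by linarith
  obtain ⟨δ, hδ⟩ : ∃ δ : ℝ, δ = γ / (4 * (1 + c ^ p)) := ⟨_, rfl⟩
  have hδ0 : 0 < δ := by rw [hδ]; positivity
  have hδγ : (1 + c ^ p) * δ = γ / 4 := by rw [hδ]; field_simp
  obtain ⟨η₁, hη₁, hup⟩ := hC.upper hp hδ0
  obtain ⟨η₂, hη₂, hlo⟩ := hC.lower hp hδ0
  let β : ℕ → ℝ := fun i => B (i + 1) - |W i - e i * w i * q i| ^ p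
  let α : ℕ → ℝ := fun i => A (i + 1) - |U i - w i * q i| ^ p
  obtain ⟨M, hM⟩ : ∃ M : ℝ, M = |B 0| + ∑ i ∈ Finset.range J, |β i| := ⟨_, rfl⟩
  have hM0 : 0 ≤ M := by rw [hM]; positivity
  obtain ⟨η₄, hη₄, hgr⟩ := grad_ineq n J hw hC.sgn hd hd1
  obtain ⟨η₃, hη₃, hη₃₄, hη₃q⟩ : ∃ η₃ : ℝ, 0 < η₃ ∧ η₃ < η₄ ∧
      ∀ j < J, η₃ < q j ∧ η₃ < 1 - q j := by
    have h1 : ∀ᶠ t : ℝ in 𝓝[>] 0, ∀ j ∈ Finset.range J, t < q j ∧ t < 1 - q j :=
      (eventually_all_finset _).2 fun j hj => mem_nhdsWithin_of_mem_nhds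
        ((gt_mem_nhds (hC.q_pos j (Finset.mem_range.1 hj))).and
          (gt_mem_nhds (sub_pos.2 (hC.q_lt j (Finset.mem_range.1 hj)))))
    have h2 : ∀ᶠ t : ℝ in 𝓝[>] 0, t < η₄ := mem_nhdsWithin_of_mem_nhds (gt_mem_nhds hη₄)
    obtain ⟨t, ⟨ht1, ht3⟩, ht2⟩ := ((h1.and h2).and self_mem_nhdsWithin).exists
    exact ⟨t, ht2, ht3, fun j hj => ht1 j (Finset.mem_range.2 hj)⟩
  obtain ⟨η, hη0, h1, h2, h3, h4, h5⟩ : ∃ η : ℝ, 0 < η ∧ η ≤ η₁ ∧ η ≤ η₂ ∧ η ≤ η₃ ∧ η ≤ 1 / 2 ∧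
      η ≤ γ / (4 * (M + 1)) :=
    ⟨min η₁ (min η₂ (min η₃ (min (1 / 2) (γ / (4 * (M + 1)))))), by positivity, min_le_left _ _,
      (min_le_right _ _).trans (min_le_left _ _),
      (min_le_right _ _).trans ((min_le_right _ _).trans (min_le_left _ _)),
      (min_le_right _ _).trans ((min_le_right _ _).trans ((min_le_right _ _).trans
        (min_le_left _ _))),
      (min_le_right _ _).trans ((min_le_right _ _).trans ((min_le_right _ _).trans
        (min_le_right _ _)))⟩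
  have hMη : M * η ≤ γ / 4 := by
    rw [le_div_iff₀ (by positivity)] at h5
    nlinarith
  obtain ⟨D, s, K, G⟩ := exists_geo3 hn J hC.q_pos hC.q_lt hη0 (by linarith)
    (fun j hj => lt_of_le_of_lt h3 (hη₃q j hj).1) (fun j hj => lt_of_le_of_lt h3 (hη₃q j hj).2)
  have hH : ∀ (x₀ : ℝ) (a : ℕ → ℝ), ∀ z ∈ closure D,
      HarmonicAt (fun x => aff J q x₀ a (fun i => s i x)) z := fun x₀ a z hz =>
    harm_aff q x₀ a fun j hj => G.s_harm j hj z hz
  have hH0 : ∀ (x₀ : ℝ) (a : ℕ → ℝ), aff J q x₀ a (fun i => s i 0) = x₀ := by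
    intro x₀ a
    unfold aff
    rw [Finset.sum_eq_zero fun i hi => by
      simp only [G.s_zero i (Finset.mem_range.1 hi), sub_self, mul_zero], add_zero]
  have hHb : ∀ (x₀ : ℝ) (a : ℕ → ℝ), ∀ z ∈ closure D,
      |aff J q x₀ a (fun i => s i z)| ≤ |x₀| + ∑ i ∈ Finset.range J, |a i| := fun x₀ a z hz =>
    aff_abs_le x₀ a hC.q_pos hC.q_lt fun j hj => G.s_mem j hj z hz
  have hHc : ∀ (x₀ : ℝ) (a : ℕ → ℝ),
      ContinuousOn (fun x => aff J q x₀ a (fun i => s i x)) (closure D) := fun x₀ a z hz =>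
    (hH x₀ a z hz).1.continuousAt.continuousWithinAt
  refine ⟨D, fun x => aff J q (U 0) w (fun i => s i x),
    fun x => aff J q (W 0) (fun i => e i * w i) (fun i => s i x), G.isOpen, G.conn, G.bdd,
    G.zero_mem, fun z hz => hH _ _ z (subset_closure hz), fun z hz => hH _ _ z (subset_closure hz),
    fun x hx => ?_, ?_, ⟨(|U 0| + ∑ i ∈ Finset.range J, |w i|) +
      (|W 0| + ∑ i ∈ Finset.range J, |e i * w i|), fun x hx => ⟨?_, ?_⟩⟩,
    fun x => aff J q (A 0) α (fun i => s i x) + δ, fun z hz => ?_, fun x hx => ?_,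
    γ / 4, by positivity, fun g hg hvg => ?_⟩
  · have hs : ∀ j < J, HarmonicAt (s j) x := fun j hj => G.s_harm j hj x (subset_closure hx)
    rw [gr_aff q _ _ hs, gr_aff q _ _ hs]
    exact hgr η hη0.le (by linarith) _ (G.dom x hx)
  · simp only [hH0]
    exact hWU
  · exact (hHb _ _ x (subset_closure hx)).trans (le_add_of_nonneg_right (by positivity))
  · exact (hHb _ _ x (subset_closure hx)).trans (le_add_of_nonneg_left (by positivity))
  · exact (hH _ _ z (subset_closure hz)).add (harmonicAt_const δ)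
  · obtain ⟨l, hl, ha⟩ := G.act x hx
    exact hup η hη0.le h1 _ (fun j hj => G.s_mem j hj x (subset_closure hx)) l hl ha
  · have key := min_principle (by omega) G.isOpen G.bdd
      (w := fun x => g x - aff J q (B 0) β (fun i => s i x) + δ + M * K x)
      (φ := fun x => |aff J q (W 0) (fun i => e i * w i) (fun i => s i x)| ^ p -
        aff J q (B 0) β (fun i => s i x) + δ + M * K x)
      (fun z hz => (((hg z hz).sub (hH _ _ z (subset_closure hz))).add (harmonicAt_const δ)).add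
        (harm_mul M (G.K_harm z (subset_closure hz))))
      (by
        refine ((ContinuousOn.sub ?_ (hHc _ _)).add continuousOn_const).add
          (continuousOn_const.mul fun z hz => (G.K_harm z hz).1.continuousAt.continuousWithinAt)
        exact (hHc _ _).abs.rpow_const fun _ _ => Or.inr (by linarith))
      (fun z hz => by linarith [hvg z hz])
      (fun z hz hz' => by
        have k0 := G.K_nonneg z hz
        have v0 : 0 ≤ |aff J q (W 0) (fun i => e i * w i) (fun i => s i z)| ^ p :=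
          Real.rpow_nonneg (abs_nonneg _) p
        rcases G.bdry z hz hz' with h | h
        · have b1 := (le_abs_self _).trans (hHb (B 0) β z hz)
          have b2 : M * 1 ≤ M * K z := mul_le_mul_of_nonneg_left h hM0
          linarith
        · have b1 := hlo η hη0.le h2 _ (fun j hj => G.s_mem j hj z hz) h
          have b2 : 0 ≤ M * K z := mul_nonneg hM0 k0
          linarith) 0 G.zero_mem
    simp only [hH0] at key ⊢
    have b3 : M * K 0 ≤ M * η := mul_le_mul_of_nonneg_left G.K_zero hM0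
    nlinarith

theorem main3 (n : ℕ) (hn : 3 ≤ n) (p : ℝ) (hp : 1 < p) (c : ℝ) (hc0 : 0 ≤ c)
    (hc : c < max p (p / (p - 1)) - 1) :
    ∃ (D : Set (E n)) (u v : E n → ℝ),
      IsOpen D ∧ IsConnected D ∧ Bornology.IsBounded D ∧ (0 : E n) ∈ D ∧
      HarmonicOnNhd u D ∧ HarmonicOnNhd v D ∧
      (∀ x ∈ D, ∑ i : Fin n, fderiv ℝ v x (EuclideanSpace.single i (1 : ℝ)) ^ 2 ≤
        ∑ i : Fin n, fderiv ℝ u x (EuclideanSpace.single i (1 : ℝ)) ^ 2) ∧
      |v 0| ≤ |u 0| ∧ (∃ M : ℝ, ∀ x ∈ D, |u x| ≤ M ∧ |v x| ≤ M) ∧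
      ∃ h : E n → ℝ, HarmonicOnNhd h D ∧ (∀ x ∈ D, |u x| ^ p ≤ h x) ∧
        ∃ ε : ℝ, 0 < ε ∧ ∀ g : E n → ℝ, HarmonicOnNhd g D → (∀ x ∈ D, |v x| ^ p ≤ g x) →
          c ^ p * h 0 + ε ≤ g 0 := by
  obtain ⟨c', hcc', hc'⟩ := exists_between hc
  have hc'0 : 0 < c' := lt_of_le_of_lt hc0 hcc'
  obtain ⟨d, hd⟩ : ∃ d : ℝ, d = (c' - c) / (2 * c') := ⟨_, rfl⟩
  have hd0 : 0 < d := by rw [hd]; exact div_pos (by linarith) (by linarith)
  have hd1 : d < 1 := by rw [hd, div_lt_one (by linarith)]; linarith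
  have hdc : c ≤ (1 - d) * c' := by
    have : d * c' = (c' - c) / 2 := by rw [hd]; field_simp
    linarith
  have ha0 : 0 < 1 - d := by linarith
  obtain ⟨D, u, v, h1, h2, h3, h4, hu, hv, hg, h0, ⟨M, hM⟩, h, hh, huh, ε, hε, hlow⟩ :=
    main_aux n hn p hp c' hc'0.le hc' hd0 hd1
  have hle : ∀ x, |(1 - d) * v x| ≤ |v x| := fun x => by
    rw [abs_mul, abs_of_pos ha0]
    nlinarith [abs_nonneg (v x)]
  have hap : 0 < (1 - d) ^ p := Real.rpow_pos_of_pos ha0 p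
  refine ⟨D, u, fun x => (1 - d) * v x, h1, h2, h3, h4, hu, fun z hz => harm_mul _ (hv z hz),
    fun x hx => ?_, (hle 0).trans h0, ⟨M, fun x hx => ⟨(hM x hx).1, (hle x).trans (hM x hx).2⟩⟩,
    h, hh, huh, (1 - d) ^ p * ε, by positivity, fun g hg' hvg => ?_⟩
  · rw [← norm_gr_sq, ← norm_gr_sq, gr_mul _ (hv x hx), norm_smul, Real.norm_eq_abs,
      abs_of_pos ha0]
    exact pow_le_pow_left₀ (by positivity) (hg x hx) 2
  · have key := hlow (fun x => ((1 - d) ^ p)⁻¹ * g x) (fun z hz => harm_mul _ (hg' z hz))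
      (fun x hx => by
        have := hvg x hx
        simp only at this
        rw [abs_mul, abs_of_pos ha0, Real.mul_rpow ha0.le (abs_nonneg _)] at this
        rwa [le_inv_mul_iff₀ hap])
    rw [le_inv_mul_iff₀ hap] at key
    have hh0 : 0 ≤ h 0 := (Real.rpow_nonneg (abs_nonneg _) p).trans (huh 0 h4)
    have hcp : c ^ p ≤ (1 - d) ^ p * c' ^ p := by
      rw [← Real.mul_rpow ha0.le hc'0.le]
      exact Real.rpow_le_rpow hc0 hdc (by linarith)
    nlinarith [mul_le_mul_of_nonneg_right hcp hh0]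

end Pool.Agent.Lib.MP_540347_an.S3
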