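import Pool.Agent.Lib.MP_540347_an.S3.Defs

set_option autoImplicit false

open Set InnerProductSpace Filter Topology

namespace Pool.Agent.Lib.MP_540347_an.S3

open Pool.Agent.Lib.MP_540347_an.SC

lemma bar_d2 {A b g t c : ℝ} (hA : 0 < A) (hS : 0 < √A - t) :
    deriv (deriv (fun s : ℝ => Real.log (√(A + 2 * b * s + g * s ^ 2) - (t + c * s)))) 0 =
      (g / √A - b ^ 2 / √A ^ 3) / (√A - t) - (b / √A - c) ^ 2 / (√A - t) ^ 2 := by
  have hp : ∀ s : ℝ, HasDerivAt (fun s : ℝ => A + 2 * b * s + g * s ^ 2) (2 * b + 2 * g * s) s := by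
    intro s
    have h1 := (((hasDerivAt_id s).const_mul (2 * b)).const_add A).add
      ((hasDerivAt_pow 2 s).const_mul g)
    refine h1.congr_deriv ?_
    simp
    ring
  have hq : HasDerivAt (fun s : ℝ => 2 * b + 2 * g * s) (2 * g) 0 := by
    have h1 := ((hasDerivAt_id (0 : ℝ)).const_mul (2 * g)).const_add (2 * b)
    rw [mul_one] at h1
    exact h1
  have hl : ∀ s : ℝ, HasDerivAt (fun s : ℝ => t + c * s) c s := fun s => by
    have h1 := ((hasDerivAt_id s).const_mul c).const_add t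
    rw [mul_one] at h1
    exact h1
  have e0 : A + 2 * b * 0 + g * 0 ^ 2 = A := by ring
  have h0 : A + 2 * b * 0 + g * 0 ^ 2 ≠ 0 := by rw [e0]; exact hA.ne'
  have hR : 0 < √A := Real.sqrt_pos.2 hA
  have hr0 := (hp 0).sqrt h0
  have hS0 := hr0.sub (hl 0)
  have hSne : √(A + 2 * b * 0 + g * 0 ^ 2) - (t + c * 0) ≠ 0 := by
    rw [e0, mul_zero, add_zero]; exact hS.ne'
  have h1 : deriv (fun s : ℝ => Real.log (√(A + 2 * b * s + g * s ^ 2) - (t + c * s))) =ᶠ[𝓝 0]
      fun s => ((2 * b + 2 * g * s) / (2 * √(A + 2 * b * s + g * s ^ 2)) - c) /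
        (√(A + 2 * b * s + g * s ^ 2) - (t + c * s)) := by
    filter_upwards [(hp 0).continuousAt.eventually_ne h0, hS0.continuousAt.eventually_ne hSne]
      with s hs hs'
    exact ((((hp s).sqrt hs).sub (hl s)).log hs').deriv
  have h2 := ((hq.div (hr0.const_mul 2) (by
    rw [e0]; positivity)).sub_const c).div hS0 hSne
  rw [h1.deriv_eq]
  refine h2.deriv.trans ?_
  have hS' := hS.ne'
  have hR' := hR.ne'
  simp only [Pi.sub_apply, Pi.div_apply, e0]
  simp only [mul_zero, add_zero]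
  field_simp

lemma Sb_pos {n : ℕ} {i₀ i₁ : Fin n} (k : Fin n) (t σ β : ℝ) {z : E n} (hz : 0 < P i₀ i₁ t z) :
    0 < Sb i₀ i₁ k t σ β z := by
  unfold Sb
  rw [sub_pos]
  exact Real.lt_sqrt_of_sq_lt (by linarith)

/-- The potential of a half line in three variables is harmonic. -/
theorem harm_bar {n : ℕ} {i₀ i₁ k : Fin n} (h01 : i₀ ≠ i₁) (hk0 : k ≠ i₀) (hk1 : k ≠ i₁)
    (t β : ℝ) {σ : ℝ} (hσ : σ = 1 ∨ σ = -1) {z : E n} (hz : 0 < P i₀ i₁ t z) :
    HarmonicAt (fun x => Real.log (5 / Sb i₀ i₁ k t σ β x)) z := by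
  have hPc : Continuous (P i₀ i₁ t : E n → ℝ) := by
    unfold P
    fun_prop
  have hev : ∀ᶠ x in 𝓝 z, 0 < P i₀ i₁ t x := hPc.continuousAt.eventually (lt_mem_nhds hz)
  have hs : ∀ x : E n, 0 < P i₀ i₁ t x →
      ContDiffAt ℝ 2 (fun x => Real.log (Sb i₀ i₁ k t σ β x)) x := by
    intro x hx
    refine ContDiffAt.log ?_ (Sb_pos k t σ β hx).ne'
    unfold Sb
    refine ContDiffAt.sub (ContDiffAt.sqrt ?_ (by positivity)) (by fun_prop)
    unfold P
    fun_prop
  have hσ2 : σ ^ 2 = 1 := by rcases hσ with h | h <;> rw [h] <;> norm_num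
  have hH : HarmonicAt (fun x => Real.log (Sb i₀ i₁ k t σ β x)) z := by
    refine ⟨hs z hz, ?_⟩
    filter_upwards [hev] with x hx
    rw [laplacian_eq_iteratedFDeriv_orthonormalBasis _ (EuclideanSpace.basisFun (Fin n) ℝ)]
    obtain ⟨y, hy⟩ : ∃ y : ℝ, y = σ * x k - β := ⟨_, rfl⟩
    obtain ⟨A, hA⟩ : ∃ A : ℝ, A = P i₀ i₁ t x + y ^ 2 := ⟨_, rfl⟩
    have hA0 : 0 < A := by rw [hA]; positivity
    have hS : 0 < √A - y := by rw [hA, hy]; exact Sb_pos k t σ β hx
    have key : ∀ i : Fin n, iteratedFDeriv ℝ 2 (fun x => Real.log (Sb i₀ i₁ k t σ β x)) x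
        ![EuclideanSpace.basisFun (Fin n) ℝ i, EuclideanSpace.basisFun (Fin n) ℝ i] =
        (if i₀ = i then (1 / √A - x i₀ ^ 2 / √A ^ 3) / (√A - y) - (x i₀ / √A) ^ 2 / (√A - y) ^ 2
          else 0) +
        (if i₁ = i then (1 / √A - (x i₁ - t) ^ 2 / √A ^ 3) / (√A - y) -
          ((x i₁ - t) / √A) ^ 2 / (√A - y) ^ 2 else 0) +
        (if k = i then (1 / √A - y ^ 2 / √A ^ 3) / (√A - y) - (y / √A - 1) ^ 2 / (√A - y) ^ 2
          else 0) := by
      intro i
      rw [d2_line _ (hs x hx)]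
      set v : E n := EuclideanSpace.basisFun (Fin n) ℝ i with hv
      have h1 : (fun s : ℝ => Real.log (Sb i₀ i₁ k t σ β (x + s • v))) = fun s : ℝ =>
          Real.log (√(A + 2 * (x i₀ * v i₀ + (x i₁ - t) * v i₁ + y * (σ * v k)) * s +
            (v i₀ ^ 2 + v i₁ ^ 2 + (σ * v k) ^ 2) * s ^ 2) - (y + σ * v k * s)) := by
        funext s
        simp only [Sb, P, PiLp.add_apply, PiLp.smul_apply, smul_eq_mul, hA, hy]
        congr 3 <;> ring
      have h2 : ∀ j, v j = if j = i then 1 else 0 := fun j => by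
        simp [hv]
      rw [h1, bar_d2 hA0 hS, h2, h2, h2]
      by_cases e0 : i₀ = i
      · subst e0
        simp [h01.symm, hk0]
      by_cases e1 : i₁ = i
      · subst e1
        simp [h01, hk1]
      by_cases e2 : k = i
      · subst e2
        simp only [e0, e1, if_true, if_false, mul_zero, mul_one, zero_add]
        rcases hσ with h | h <;> rw [h] <;> ring
      simp [e0, e1, e2]
    simp only [key, Finset.sum_add_distrib, Finset.sum_ite_eq, Finset.mem_univ, if_true,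
      Pi.zero_apply]
    have hR : 0 < √A := Real.sqrt_pos.2 hA0
    have hR2 : x i₀ ^ 2 = √A ^ 2 - (x i₁ - t) ^ 2 - y ^ 2 := by
      rw [Real.sq_sqrt hA0.le, hA]
      unfold P
      ring
    have hS' := hS.ne'
    have hR' := hR.ne'
    rw [div_pow (x i₀), hR2]
    field_simp
    ring
  have h5 : (fun x => Real.log (5 / Sb i₀ i₁ k t σ β x)) =ᶠ[𝓝 z]
      (fun _ => Real.log 5) - fun x => Real.log (Sb i₀ i₁ k t σ β x) := by
    filter_upwards [hev] with x hx
    exact Real.log_div (by norm_num) (Sb_pos k t σ β hx).ne'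
  exact (harmonicAt_congr_nhds h5).2 ((harmonicAt_const _).sub hH)

end Pool.Agent.Lib.MP_540347_an.S3
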