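import Pool.Agent.Lib.MP_540347_an.S3.Defs

set_option autoImplicit false

open Set InnerProductSpace Filter Topology

namespace Pool.Agent.Lib.MP_540347_an.S3

open Pool.Agent.Lib.MP_540347_an.SC

theorem sc_step {τ η θ : ℝ} (hτ : 0 < τ) (hτ1 : τ ≤ 1) (hη : 0 < η) (hθ : 0 < θ) (x : ℝ) :
    ∃ r a : ℝ, 0 < x → x ≤ 1 → 0 < r ∧ r ≤ x ∧
      0 < a ∧ r + a < τ * x ∧ 0 < Real.log (5 * (τ * x) / a ^ 2) ∧
      Real.log (5 / (τ * x)) ≤ θ * Real.log (5 * (τ * x) / a ^ 2) ∧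
      Real.log (5 / a) ≤ η * Real.log (5 / r) ∧
      5 * Real.log (5 / x) ≤ η ^ 2 * a * Real.log (5 / r) ∧
      4 * Real.log (5 / r) * r ≤ η ^ 2 * x := by
  by_cases hx : 0 < x ∧ x ≤ 1
  swap
  · exact ⟨0, 0, fun h1 h2 => absurd ⟨h1, h2⟩ hx⟩
  obtain ⟨hx0, hx1⟩ := hx
  obtain ⟨b, hb⟩ : ∃ b, b = τ * x := ⟨_, rfl⟩
  have hb0 : 0 < b := by rw [hb]; positivity
  have hbx : b ≤ x := by rw [hb]; nlinarith
  have hl : 0 < Real.log (5 / b) := Real.log_pos (by rw [lt_div_iff₀ hb0]; linarith)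
  obtain ⟨m, hm⟩ : ∃ m, m = Real.log (5 / b) / θ := ⟨_, rfl⟩
  have hm0 : 0 < m := by rw [hm]; positivity
  have hmθ : θ * m = Real.log (5 / b) := by rw [hm]; field_simp
  obtain ⟨a, ha⟩ : ∃ a, a = b / 2 * Real.exp (-m) := ⟨_, rfl⟩
  have ha0 : 0 < a := by rw [ha]; positivity
  have hab : a < b / 2 := by
    have : Real.exp (-m) < 1 := Real.exp_lt_one_iff.2 (by linarith)
    rw [ha]; nlinarith
  have hlog : 2 * m ≤ Real.log (5 * b / a ^ 2) := by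
    have e : 5 * b / a ^ 2 = 20 / b * Real.exp (2 * m) := by
      have e1 : Real.exp (2 * m) = Real.exp m ^ 2 := by
        rw [← Real.exp_nat_mul]; norm_num
      rw [ha, e1, Real.exp_neg]
      field_simp
      norm_num
    rw [e, Real.log_mul (by positivity) (by positivity), Real.log_exp]
    have : 0 < Real.log (20 / b) := Real.log_pos (by rw [lt_div_iff₀ hb0]; linarith)
    linarith
  have t1 : ∀ᶠ l : ℝ in atTop, Real.exp (-l) < b / 10 :=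
    Real.tendsto_exp_neg_atTop_nhds_zero.eventually (gt_mem_nhds (by positivity))
  have t2 : ∀ᶠ l : ℝ in atTop, l ^ 1 * Real.exp (-l) < η ^ 2 * x / 20 :=
    (Real.tendsto_pow_mul_exp_neg_atTop_nhds_zero 1).eventually (gt_mem_nhds (by positivity))
  obtain ⟨l, ⟨⟨l1, l2⟩, l3⟩, l4⟩ := (((t1.and t2).and
    (eventually_ge_atTop (Real.log (5 / a) / η))).and
    (eventually_ge_atTop (5 * Real.log (5 / x) / (η ^ 2 * a)))).exists
  have hr : Real.log (5 / (5 * Real.exp (-l))) = l := by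
    have e : 5 / (5 * Real.exp (-l)) = Real.exp l := by
      rw [Real.exp_neg]; field_simp
    rw [e, Real.log_exp]
  refine ⟨5 * Real.exp (-l), a, fun _ _ => ?_⟩
  rw [← hb, hr]
  rw [div_le_iff₀ hη] at l3
  rw [div_le_iff₀ (by positivity)] at l4
  rw [pow_one] at l2
  refine ⟨by positivity, by linarith, ha0, by linarith, by linarith, ?_, by linarith,
    by linarith, by linarith⟩
  have := mul_le_mul_of_nonneg_left hlog hθ.le
  linarith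

/-- The scales, chosen from the last one backwards. -/
theorem exists_scales (J : ℕ) {τ η θ : ℝ} (hτ : 0 < τ) (hτ1 : τ ≤ 1) (hη : 0 < η) (hθ : 0 < θ) :
    ∃ ρ a : ℕ → ℝ, (∀ j, 0 < ρ j) ∧ (∀ j, ρ j ≤ 1) ∧ Monotone ρ ∧ ∀ j < J,
      0 < a j ∧ ρ j + a j < τ * ρ (j + 1) ∧ 0 < Real.log (5 * (τ * ρ (j + 1)) / a j ^ 2) ∧
      Real.log (5 / (τ * ρ (j + 1))) ≤ θ * Real.log (5 * (τ * ρ (j + 1)) / a j ^ 2) ∧
      Real.log (5 / a j) ≤ η * Real.log (5 / ρ j) ∧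
      5 * Real.log (5 / ρ (j + 1)) ≤ η ^ 2 * a j * Real.log (5 / ρ j) ∧
      4 * Real.log (5 / ρ j) * ρ j ≤ η ^ 2 * ρ (j + 1) := by
  choose F G hF using sc_step hτ hτ1 hη hθ
  have hk : ∀ k : ℕ, 0 < F^[k] 1 ∧ F^[k] 1 ≤ 1 := by
    intro k
    induction k with
    | zero => simp
    | succ k ih =>
      rw [Function.iterate_succ_apply']
      have h := hF _ ih.1 ih.2
      exact ⟨h.1, h.2.1.trans ih.2⟩
  have hs : ∀ j < J, F^[J - j] 1 = F (F^[J - (j + 1)] 1) := by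
    intro j hj
    have e : J - j = J - (j + 1) + 1 := by omega
    rw [e, Function.iterate_succ_apply']
  refine ⟨fun j => F^[J - j] 1, fun j => G (F^[J - (j + 1)] 1), fun j => (hk _).1,
    fun j => (hk _).2, monotone_nat_of_le_succ fun j => ?_, fun j hj => ?_⟩
  · by_cases hj : j < J
    · rw [hs j hj]
      exact (hF _ (hk _).1 (hk _).2).2.1
    · have e1 : J - j = 0 := by omega
      have e2 : J - (j + 1) = 0 := by omega
      rw [e1, e2]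
  · simp only [hs j hj]
    exact (hF _ (hk _).1 (hk _).2).2.2

theorem sc_pos {Pv t : ℝ} (h0 : 0 < Pv) : 0 < √(Pv + t ^ 2) - t := by
  have : t < √(Pv + t ^ 2) := Real.lt_sqrt_of_sq_lt (by linarith)
  linarith

theorem bar_nonneg {Pv t : ℝ} (h0 : 0 < Pv) (h5 : Pv ≤ 5) (ht : |t| ≤ 3 / 2) :
    0 ≤ Real.log (5 / (√(Pv + t ^ 2) - t)) := by
  refine Real.log_nonneg ?_
  rw [le_div_iff₀ (sc_pos h0)]
  obtain ⟨h1, h2⟩ := abs_le.1 ht
  have h3 : √(Pv + t ^ 2) ≤ 3 := by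
    rw [Real.sqrt_le_iff]
    exact ⟨by norm_num, by nlinarith⟩
  linarith

theorem bar_tube {Pv t a b : ℝ} (h0 : 0 < Pv) (ha : Pv ≤ a ^ 2) (hb : 0 < b) (ht : b / 2 ≤ t) :
    Real.log (5 * b / a ^ 2) ≤ Real.log (5 / (√(Pv + t ^ 2) - t)) := by
  have ha0 : 0 < a ^ 2 := lt_of_lt_of_le h0 ha
  refine Real.log_le_log (by positivity) ?_
  rw [div_le_div_iff₀ ha0 (sc_pos h0)]
  have h1 : √(Pv + t ^ 2) ≤ t + a ^ 2 / b := by
    have h2 : 0 < a ^ 2 / b := by positivity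
    have h3 : b * (a ^ 2 / b) = a ^ 2 := by field_simp
    rw [Real.sqrt_le_iff]
    exact ⟨by linarith, by nlinarith⟩
  have h4 : b * (√(Pv + t ^ 2) - t) ≤ b * (a ^ 2 / b) :=
    mul_le_mul_of_nonneg_left (by linarith) hb.le
  have h3 : b * (a ^ 2 / b) = a ^ 2 := by field_simp
  linarith

theorem bar_zero {Pv b : ℝ} (h0 : 0 ≤ Pv) (hb : 0 < b) :
    Real.log (5 / (√(Pv + (-(b / 2)) ^ 2) - -(b / 2))) ≤ Real.log (5 / b) := by
  have h1 : b / 2 ≤ √(Pv + (-(b / 2)) ^ 2) := Real.le_sqrt_of_sq_le (by nlinarith)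
  refine Real.log_le_log (div_pos (by norm_num) (by linarith)) ?_
  exact div_le_div_of_nonneg_left (by norm_num) hb (by linarith)

theorem near_P {ρ τ x₀ x₁ : ℝ} (hρ : 0 < ρ) (hτ : 0 < τ) (hτ1 : τ ≤ 1 / 4) (h0 : |x₀| < τ * ρ)
    (h1 : |x₁| < τ * ρ) :
    ρ / 2 ≤ √(x₀ ^ 2 + (x₁ - ρ) ^ 2) ∧ √(x₀ ^ 2 + (x₁ - ρ) ^ 2) ≤ 2 * ρ ∧
      |Real.log ((x₀ ^ 2 + (x₁ - ρ) ^ 2) / 25) - Real.log (ρ ^ 2 / 25)| ≤ 4 * τ := by
  obtain ⟨a1, a2⟩ := abs_lt.1 h0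
  obtain ⟨b1, b2⟩ := abs_lt.1 h1
  have hτρ : 0 < τ * ρ := by positivity
  have hτρ' : τ * ρ ≤ ρ / 4 := by nlinarith
  have hx0 : x₀ ^ 2 ≤ (τ * ρ) ^ 2 := by nlinarith
  have lo : (ρ - τ * ρ) ^ 2 ≤ x₀ ^ 2 + (x₁ - ρ) ^ 2 := by nlinarith [sq_nonneg x₀]
  have hi : x₀ ^ 2 + (x₁ - ρ) ^ 2 ≤ (τ * ρ) ^ 2 + (ρ + τ * ρ) ^ 2 := by nlinarith
  obtain ⟨S, hS⟩ : ∃ S, S = x₀ ^ 2 + (x₁ - ρ) ^ 2 := ⟨_, rfl⟩
  rw [← hS] at lo hi ⊢
  have hρ2 : 0 < ρ ^ 2 := by positivity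
  have hS0 : 0 < S := lt_of_lt_of_le (by nlinarith) lo
  refine ⟨Real.le_sqrt_of_sq_le (by nlinarith), ?_, ?_⟩
  · rw [Real.sqrt_le_iff]
    exact ⟨by linarith, by nlinarith⟩
  · rw [abs_le]
    constructor
    · have e : Real.log (ρ ^ 2 / 25) - Real.log (S / 25) = Real.log (ρ ^ 2 / S) := by
        rw [← Real.log_div (by positivity) (by positivity)]
        congr 1
        field_simp
      have h2 := Real.log_le_sub_one_of_pos (show 0 < ρ ^ 2 / S by positivity)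
      have h3 : ρ ^ 2 / S ≤ 1 + 4 * τ := by
        rw [div_le_iff₀ hS0]
        have h4 : 1 ≤ (1 + 4 * τ) * (1 - τ) ^ 2 := by nlinarith [mul_pos hτ hτ]
        have h5 : (1 + 4 * τ) * (ρ - τ * ρ) ^ 2 ≤ (1 + 4 * τ) * S :=
          mul_le_mul_of_nonneg_left lo (by linarith)
        have h6 := mul_le_mul_of_nonneg_left h4 hρ2.le
        nlinarith
      linarith
    · have e : Real.log (S / 25) - Real.log (ρ ^ 2 / 25) = Real.log (S / ρ ^ 2) := by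
        rw [← Real.log_div (by positivity) (by positivity)]
        congr 1
        field_simp
      have h2 := Real.log_le_sub_one_of_pos (show 0 < S / ρ ^ 2 by positivity)
      have h3 : S / ρ ^ 2 ≤ 1 + 4 * τ := by
        rw [div_le_iff₀ hρ2]
        have h4 : τ ^ 2 + (1 + τ) ^ 2 ≤ 1 + 4 * τ := by nlinarith
        have h6 := mul_le_mul_of_nonneg_left h4 hρ2.le
        nlinarith
      linarith

end Pool.Agent.Lib.MP_540347_an.S3
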