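import Pool.Agent.Lib.MP_540347_an.S3.KerLog
import Pool.Agent.Lib.MP_540347_an.S3.KerBar
import Pool.Agent.Lib.MP_540347_an.S3.Scales

set_option autoImplicit false

open Set InnerProductSpace Filter Topology

namespace Pool.Agent.Lib.MP_540347_an.S3

open Pool.Agent.Lib.MP_540347_an.SC

lemma exists_planes {n : ℕ} (hn : 3 ≤ n) :
    ∃ (o : Fin n) (ι : ℕ → Fin n), (∀ j, o ≠ ι j) ∧ ∀ j, ι j ≠ ι (j + 1) := by
  refine ⟨⟨0, by omega⟩, fun j => ⟨j % 2 + 1, by omega⟩, fun j h => ?_, fun j h => ?_⟩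
  · have := congrArg Fin.val h
    simp only at this
    omega
  · have := congrArg Fin.val h
    simp only at this
    omega

lemma one_le_log {ρ : ℝ} (h0 : 0 < ρ) (h1 : ρ ≤ 1) : 1 ≤ Real.log (5 / ρ) := by
  rw [Real.le_log_iff_exp_le (by positivity), le_div_iff₀ h0]
  have := Real.exp_one_lt_d9
  have := Real.exp_pos 1
  nlinarith

lemma old_est {η L L' lam lam' r r' a : ℝ} (hη : 0 < η) (ha : 0 < a) (hl : 0 < lam)
    (hL : 2 * lam ≤ L) (hL' : η * L' ≤ 2 * lam') (hL'0 : 0 < L') (hr : a ≤ r) (hr'0 : 0 < r')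
    (hr' : r' ≤ 5) (h : 5 * lam' ≤ η ^ 2 * a * lam) : 2 / (L * r) ≤ η * (2 / (L' * r')) := by
  have hL0 : 0 < L := by linarith
  have hr0 : 0 < r := by linarith
  rw [← mul_div_assoc, div_le_div_iff₀ (by positivity) (by positivity)]
  have h1 : 2 * lam * a ≤ L * r := mul_le_mul hL hr ha.le hL0.le
  have h2 : η * (L' * r') ≤ 2 * lam' * 5 := by
    rw [← mul_assoc]
    exact mul_le_mul hL' hr' hr'0.le (le_trans (by positivity) hL')
  have h3 : η * (L' * r') ≤ η * (η * (L * r)) := by nlinarith [mul_le_mul_of_nonneg_left h1 (sq_nonneg η)]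
  have h4 := le_of_mul_le_mul_left h3 hη
  linarith

lemma new_est {η L L' lam' r r' x y : ℝ} (hη : 0 < η) (hx : 0 < x)
    (hL : 2 ≤ L) (hL' : η * L' ≤ 2 * lam') (hL'0 : 0 < L') (hr : x / 2 ≤ r) (hr'0 : 0 < r')
    (hr' : r' ≤ 2 * y) (h : 4 * lam' * y ≤ η ^ 2 * x) : 2 / (L * r) ≤ η * (2 / (L' * r')) := by
  have hL0 : 0 < L := by linarith
  have hr0 : 0 < r := by linarith
  rw [← mul_div_assoc, div_le_div_iff₀ (by positivity) (by positivity)]
  have h1 : 2 * (x / 2) ≤ L * r := mul_le_mul hL hr (by positivity) hL0.le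
  have h2 : η * (L' * r') ≤ 2 * lam' * (2 * y) := by
    rw [← mul_assoc]
    exact mul_le_mul hL' hr' hr'0.le (le_trans (by positivity) hL')
  have h3 : η * (L' * r') ≤ η * (η * (L * r)) := by nlinarith [mul_le_mul_of_nonneg_left h1 (sq_nonneg η)]
  have h4 := le_of_mul_le_mul_left h3 hη
  linarith

theorem exists_geo3 {n : ℕ} (hn : 3 ≤ n) (J : ℕ) {q : ℕ → ℝ} (hq0 : ∀ j < J, 0 < q j)
    (hq1 : ∀ j < J, q j < 1) {η : ℝ} (hη : 0 < η) (hη1 : η < 1)
    (hηq : ∀ j < J, η < q j) (hηq' : ∀ j < J, η < 1 - q j) :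
    ∃ (D : Set (E n)) (s : ℕ → E n → ℝ) (K : E n → ℝ), Geo3 n J q η D s K := by
  classical
  obtain ⟨o, ι, hoι, hιι⟩ := exists_planes hn
  obtain ⟨τ, hτ⟩ : ∃ τ : ℝ, τ = η / 4 := ⟨_, rfl⟩
  have hτ0 : 0 < τ := by linarith
  have hτ1 : τ ≤ 1 / 4 := by linarith
  obtain ⟨θ, hθ⟩ : ∃ θ : ℝ, θ = η / (2 * J * n + 1) := ⟨_, rfl⟩
  have hJn : (0 : ℝ) ≤ 2 * J * n := by positivity
  have hθ0 : 0 < θ := by rw [hθ]; positivity
  obtain ⟨ρ, a, hρ0, hρ1, hρm, hsc⟩ := exists_scales J hτ0 (by linarith) hη hθ0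
  let b : ℕ → ℝ := fun j => τ * ρ (j + 1)
  let lam : ℕ → ℝ := fun j => Real.log (5 / ρ j)
  let L : ℕ → ℝ := fun j => 2 * lam j / (1 - q j)
  let N : ℕ → ℝ := fun j => Real.log (5 * b j / a j ^ 2)
  have hb0 : ∀ j, 0 < b j := fun j => mul_pos hτ0 (hρ0 _)
  have hb1 : ∀ j, b j ≤ 1 := fun j => by
    have := hρ1 (j + 1)
    have := hρ0 (j + 1)
    simp only [b]
    nlinarith
  have hbm : ∀ i j, i ≤ j → b i ≤ b j := fun i j h =>
    mul_le_mul_of_nonneg_left (hρm (Nat.succ_le_succ h)) hτ0.le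
  have hlam1 : ∀ j, 1 ≤ lam j := fun j => one_le_log (hρ0 j) (hρ1 j)
  have hlamm : ∀ i j, i ≤ j → lam j ≤ lam i := fun i j h =>
    Real.log_le_log (div_pos (by norm_num) (hρ0 j))
      (div_le_div_of_nonneg_left (by norm_num) (hρ0 i) (hρm h))
  have hLq : ∀ j < J, L j * (1 - q j) = 2 * lam j := fun j hj => by
    have : 1 - q j ≠ 0 := by linarith [hq1 j hj]
    simp only [L]
    field_simp
  have hL0 : ∀ j < J, 0 < L j := fun j hj =>
    div_pos (by linarith [hlam1 j]) (by linarith [hq1 j hj])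
  have hLl : ∀ j < J, 2 * lam j ≤ L j := fun j hj => by
    nlinarith [hLq j hj, hL0 j hj, hq0 j hj]
  have hLu : ∀ j < J, η * L j ≤ 2 * lam j := fun j hj => by
    nlinarith [hLq j hj, hL0 j hj, hηq' j hj]
  let Ps : ℕ → E n → ℝ := fun j => P o (ι j) (ρ j)
  let s : ℕ → E n → ℝ := fun j => sl o (ι j) (ρ j) (L j)
  let r : ℕ → ℝ := fun j => 25 * Real.exp (-L j)
  let Out : ℕ → Fin n → Prop := fun j k => k ≠ o ∧ k ≠ ι j
  let Good : E n → Prop := fun z => ∀ j < J, ∀ k, Out j k → a j ^ 2 < Ps j z ∨ |z k| < b j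
  let D₀ : Set (E n) := {z | (∀ k, |z k| < b J) ∧ (∀ j < J, r j < Ps j z) ∧ Good z}
  let C₀ : Set (E n) := {z | (∀ k, |z k| ≤ b J) ∧ (∀ j < J, r j ≤ Ps j z)}
  let T : ℕ → Fin n → ℝ → E n → ℝ := fun j k σ z =>
    (N j)⁻¹ * Real.log (5 / Sb o (ι j) k (ρ j) σ (b j / 2) z)
  let K : E n → ℝ := fun z => ∑ j ∈ Finset.range J, ∑ k ∈ Finset.univ.filter (Out j),
    (T j k 1 z + T j k (-1) z)
  have hPc : ∀ j, Continuous (Ps j) := fun j => P_cont _ _ _
  have hkc : ∀ k : Fin n, Continuous (fun z : E n => |z k|) := fun k => by fun_prop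
  have hr0 : ∀ j, 0 < r j := fun j => by simp only [r]; positivity
  have hs : ∀ j z, s j z = 1 + Real.log (Ps j z / 25) / L j := fun j z => rfl
  have hlogr : ∀ j, Real.log (r j / 25) = -L j := fun j => by
    simp only [r]
    rw [mul_div_cancel_left₀ _ (by norm_num : (25 : ℝ) ≠ 0), Real.log_exp]
  have hlogρ : ∀ x : ℝ, 0 < x → Real.log (x ^ 2 / 25) = -(2 * Real.log (5 / x)) := fun x hx => by
    rw [show x ^ 2 / 25 = ((5 / x) ^ 2)⁻¹ by field_simp; norm_num, Real.log_inv, Real.log_pow]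
    norm_num
  have hq : ∀ j < J, 1 + Real.log (ρ j ^ 2 / 25) / L j = q j := fun j hj => by
    have := (hL0 j hj).ne'
    rw [hlogρ _ (hρ0 j)]
    have h2 := hLq j hj
    simp only [lam] at h2
    rw [← h2]
    field_simp
    ring
  have hD₀o : IsOpen D₀ := by
    simp only [D₀, Good, ofPred_and, ofPred_forall]
    refine (isOpen_iInter_of_finite fun k => isOpen_lt (hkc k) continuous_const).inter
      (IsOpen.inter ?_ ?_)
    · exact (Set.finite_lt_nat J).isOpen_biInter fun j _ => isOpen_lt continuous_const (hPc j)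
    · refine (Set.finite_lt_nat J).isOpen_biInter fun j _ => isOpen_iInter_of_finite fun k =>
        isOpen_iInter_of_finite fun _ => ?_
      exact (isOpen_lt continuous_const (hPc j)).union (isOpen_lt (hkc k) continuous_const)
  have hC₀c : IsClosed C₀ := by
    simp only [C₀, ofPred_and, ofPred_forall]
    exact (isClosed_iInter fun k => isClosed_le (hkc k) continuous_const).inter
      (isClosed_iInter fun j => isClosed_iInter fun _ => isClosed_le continuous_const (hPc j))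
  have hDC : D₀ ⊆ C₀ := fun z hz => ⟨fun k => (hz.1 k).le, fun j hj => (hz.2.1 j hj).le⟩
  have hP0 : ∀ j, Ps j 0 = ρ j ^ 2 := fun j => by simp [Ps, P]
  have h0 : (0 : E n) ∈ D₀ := by
    refine ⟨fun k => by simpa using hb0 J, fun j hj => ?_, fun j _ k _ => Or.inr ?_⟩
    · rw [hP0]
      have h1 : Real.log (r j / 25) < Real.log (ρ j ^ 2 / 25) := by
        rw [hlogr, hlogρ _ (hρ0 j)]
        have h2 := hLq j hj
        simp only [lam] at h2
        nlinarith [hL0 j hj, hq0 j hj]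
      have h3 := (Real.log_lt_log_iff (by have := hr0 j; positivity)
        (by have := hρ0 j; positivity)).1 h1
      linarith
    · simpa using hb0 j
  have hsub : connectedComponentIn D₀ 0 ⊆ D₀ := connectedComponentIn_subset _ _
  have hcl : closure (connectedComponentIn D₀ 0) ⊆ C₀ :=
    closure_minimal (hsub.trans hDC) hC₀c
  have hPpos : ∀ j < J, ∀ z ∈ C₀, 0 < Ps j z := fun j hj z hz =>
    lt_of_lt_of_le (hr0 j) (hz.2 j hj)
  have hP5 : ∀ j, ∀ z ∈ C₀, Ps j z ≤ 5 := fun j z hz => by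
    have h1 := abs_le.1 ((hz.1 o).trans (hb1 J))
    have h2 := abs_le.1 ((hz.1 (ι j)).trans (hb1 J))
    have h3 := hρ0 j
    have h4 := hρ1 j
    simp only [Ps, P]
    nlinarith
  have hfarP : ∀ z, Good z → ∀ j < J, ∀ k, b j ≤ |z k| → a j ^ 2 < Ps j z := by
    intro z hz j hj k hk
    obtain ⟨ha0, hab, -⟩ := hsc j hj
    have hab' : ρ j + a j < b j := hab
    by_cases ho : Out j k
    · exact (hz j hj k ho).resolve_right (not_lt.2 hk)
    · simp only [Out, not_and_or, not_not] at ho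
      simp only [Ps, P]
      rcases ho with h | h
      · rw [h] at hk
        have h2 : a j ^ 2 < z o ^ 2 := by
          rw [← sq_abs (z o)]
          exact pow_lt_pow_left₀ (by linarith [hρ0 j]) ha0.le two_ne_zero
        nlinarith [sq_nonneg (z (ι j) - ρ j)]
      · rw [h] at hk
        have h2 : a j ^ 2 < (z (ι j) - ρ j) ^ 2 := by
          rw [← sq_abs (z (ι j) - ρ j)]
          refine pow_lt_pow_left₀ ?_ ha0.le two_ne_zero
          have h3 := abs_sub_abs_le_abs_sub (z (ι j)) (ρ j)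
          rw [abs_of_pos (hρ0 j)] at h3
          linarith
        nlinarith [sq_nonneg (z o)]
  have hfar : ∀ z, Good z → ∀ j < J, ∀ k, b j ≤ |z k| → 1 - η ≤ s j z := by
    intro z hz j hj k hk
    have h1 := hfarP z hz j hj k hk
    obtain ⟨ha0, -, -, -, h3, -⟩ := hsc j hj
    have h2 : Real.log (a j ^ 2 / 25) ≤ Real.log (Ps j z / 25) :=
      Real.log_le_log (by positivity) (by linarith)
    rw [hlogρ _ ha0] at h2
    have h4 : -η ≤ Real.log (Ps j z / 25) / L j := by
      rw [le_div_iff₀ (hL0 j hj)]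
      have h5 : η * (2 * lam j) ≤ η * L j := mul_le_mul_of_nonneg_left (hLl j hj) hη.le
      simp only [lam] at h5
      linarith
    rw [hs]
    linarith
  have hnear : ∀ z : E n, ∀ j < J, (∀ k, |z k| < τ * ρ j) → |s j z - q j| ≤ η := by
    intro z j hj hz
    have h1 := (near_P (hρ0 j) hτ0 hτ1 (hz o) (hz (ι j))).2.2
    have h2 : s j z - q j = (Real.log (Ps j z / 25) - Real.log (ρ j ^ 2 / 25)) / L j := by
      rw [hs, ← hq j hj]
      ring
    rw [h2, abs_div, abs_of_pos (hL0 j hj), div_le_iff₀ (hL0 j hj)]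
    refine le_trans h1 ?_
    nlinarith [hLl j hj, hlam1 j]
  have hfind : ∀ z : E n, (∀ k, |z k| < b J) → ∃ l ≤ J, (∀ i < l, ∃ k, b i ≤ |z k|) ∧
      ∀ i, l < i → ∀ k, |z k| < τ * ρ i := by
    intro z hJ
    have hex : ∃ l, ∀ k, |z k| < b l := ⟨J, hJ⟩
    refine ⟨Nat.find hex, Nat.find_min' hex hJ, fun i hi => ?_, fun i hli k => ?_⟩
    · have := Nat.find_min hex hi
      push Not at this
      exact this
    · exact lt_of_lt_of_le (Nat.find_spec hex k) (mul_le_mul_of_nonneg_left (hρm hli) hτ0.le)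
  have hact : ∀ z, Good z → (∀ k, |z k| < b J) → ∃ l ≤ J, Act J q η l (fun i => s i z) := by
    intro z hz hJ
    obtain ⟨l, hl, h1, h2⟩ := hfind z hJ
    refine ⟨l, hl, fun i hi => ?_, fun i hi hli => hnear z i hi (h2 i hli)⟩
    obtain ⟨k, hk⟩ := h1 i hi
    exact hfar z hz i (lt_of_lt_of_le hi hl) k hk
  have hN0 : ∀ j < J, 0 < N j := fun j hj => (hsc j hj).2.2.1
  have hT0 : ∀ j < J, ∀ k, ∀ σ : ℝ, (σ = 1 ∨ σ = -1) → ∀ z ∈ C₀, 0 ≤ T j k σ z := by
    intro j hj k σ hσ z hz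
    refine mul_nonneg (inv_nonneg.2 (hN0 j hj).le) (bar_nonneg (hPpos j hj z hz) (hP5 j z hz) ?_)
    have h1 := abs_le.1 ((hz.1 k).trans (hb1 J))
    have h2 := hb0 j
    have h3 := hb1 j
    rw [abs_le]
    rcases hσ with h | h <;> rw [h] <;> constructor <;> linarith [h1.1, h1.2]
  have hT2 : ∀ j < J, ∀ k, ∀ z ∈ C₀, 0 ≤ T j k 1 z + T j k (-1) z := fun j hj k z hz =>
    add_nonneg (hT0 j hj k 1 (Or.inl rfl) z hz) (hT0 j hj k (-1) (Or.inr rfl) z hz)
  refine ⟨connectedComponentIn D₀ 0, s, K, hD₀o.connectedComponentIn,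
    isConnected_connectedComponentIn_iff.2 h0, ?_, mem_connectedComponentIn h0,
    fun j hj z hz => harm_sl (hoι j) _ _ (hPpos j hj z (hcl hz)), fun z hz => ?_,
    fun j hj => ?_, fun j hj z hz => ?_, fun z hz => ?_,
    fun z hz => hact z (hsub hz).2.2 (hsub hz).1, fun z hz => ?_, ?_, fun z hz hz' => ?_⟩
  · refine isBounded_iff_forall_norm_le.2 ⟨√(∑ _k : Fin n, b J ^ 2), fun z hz => ?_⟩
    rw [EuclideanSpace.norm_eq]
    refine Real.sqrt_le_sqrt (Finset.sum_le_sum fun k _ => ?_)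
    exact pow_le_pow_left₀ (norm_nonneg _) ((hsub hz).1 k).le 2
  · refine harm_sum _ fun j hj => harm_sum _ fun k hk => ?_
    have ho : Out j k := (Finset.mem_filter.1 hk).2
    have hp := hPpos j (Finset.mem_range.1 hj) z (hcl hz)
    exact (harm_mul _ (harm_bar (hoι j) ho.1 ho.2 _ _ (Or.inl rfl) hp)).add
      (harm_mul _ (harm_bar (hoι j) ho.1 ho.2 _ _ (Or.inr rfl) hp))
  · rw [hs, hP0, hq j hj]
  · have h1 := hPpos j hj z (hcl hz)
    have h2 : Real.log (r j / 25) ≤ Real.log (Ps j z / 25) :=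
      Real.log_le_log (by have := hr0 j; positivity) (by linarith [(hcl hz).2 j hj])
    rw [hlogr] at h2
    have h3 : Real.log (Ps j z / 25) ≤ 0 :=
      Real.log_nonpos (by positivity) (by linarith [hP5 j z (hcl hz)])
    have h4 : -1 ≤ Real.log (Ps j z / 25) / L j := by
      rw [le_div_iff₀ (hL0 j hj)]
      linarith
    have h5 : Real.log (Ps j z / 25) / L j ≤ 0 := div_nonpos_of_nonpos_of_nonneg h3 (hL0 j hj).le
    rw [hs]
    constructor <;> linarith
  · rcases Nat.eq_zero_or_pos J with hJ0 | hJ0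
    · exact Or.inl hJ0
    have hzD := hsub hz
    have hzC := hDC hzD
    obtain ⟨l, hl, h1, h2⟩ := hfind z hzD.1
    have hng : ∀ j < J, ‖gr (s j) z‖ = 2 / (L j * √(Ps j z)) := fun j hj =>
      norm_gr_sl (hoι j) _ (hL0 j hj) (hPpos j hj z hzC)
    have hsq : ∀ j < J, 0 < √(Ps j z) := fun j hj => Real.sqrt_pos.2 (hPpos j hj z hzC)
    have hold : ∀ m < J, ∀ i < m, i < l → ‖gr (s i) z‖ ≤ η * ‖gr (s m) z‖ := by
      intro m hm i him hil
      have hi : i < J := him.trans hm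
      obtain ⟨k, hk⟩ := h1 i hil
      have h3 := hfarP z hzD.2.2 i hi k hk
      obtain ⟨ha0, -, -, -, -, h4, -⟩ := hsc i hi
      rw [hng i hi, hng m hm]
      refine old_est (lam := lam i) (lam' := lam m) hη ha0 (by linarith [hlam1 i]) (hLl i hi)
        (hLu m hm) (hL0 m hm) (Real.le_sqrt_of_sq_le h3.le) (hsq m hm) ?_ ?_
      · exact Real.sqrt_le_iff.2 ⟨by norm_num, by linarith [hP5 m z hzC]⟩
      · have := hlamm (i + 1) m him
        simp only [lam] at this ⊢
        linarith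
    by_cases hlJ : l < J
    · refine Or.inr ⟨l, hlJ, fun i hi => hold l hlJ i hi hi, fun i hi hli => ?_, fun hl1 => ?_⟩
      · have hl1 : l + 1 < J := hli.trans hi
        have n1 := near_P (hρ0 i) hτ0 hτ1 (h2 i (by omega) o) (h2 i (by omega) (ι i))
        have n2 := near_P (hρ0 (l + 1)) hτ0 hτ1 (h2 (l + 1) (by omega) o)
          (h2 (l + 1) (by omega) (ι (l + 1)))
        obtain ⟨-, -, -, -, -, -, h4⟩ := hsc (l + 1) hl1
        show ‖gr (s i) z‖ ≤ η * ‖gr (s (l + 1)) z‖
        rw [hng i hi, hng (l + 1) hl1]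
        refine new_est (lam' := lam (l + 1)) hη (hρ0 i) (by linarith [hLl i hi, hlam1 i])
          (hLu _ hl1) (hL0 _ hl1) n1.1 (hsq _ hl1) n2.2.1 ?_
        exact h4.trans (mul_le_mul_of_nonneg_left (hρm hli) (sq_nonneg η))
      · have n2 := near_P (hρ0 (l + 1)) hτ0 hτ1 (h2 (l + 1) (by omega) o)
          (h2 (l + 1) (by omega) (ι (l + 1)))
        refine inner_gr_sl (hoι l) (hoι (l + 1)) (hιι l) _ _ (hL0 l hlJ) (hL0 _ hl1)
          (hPpos l hlJ z hzC) (hPpos _ hl1 z hzC) ?_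
        have h3 := h2 (l + 1) (by omega) o
        have h4 : η * (ρ (l + 1) / 2) ≤ η * √(P o (ι (l + 1)) (ρ (l + 1)) z) :=
          mul_le_mul_of_nonneg_left n2.1 hη.le
        nlinarith [hρ0 (l + 1)]
    · exact Or.inr ⟨J - 1, by omega, fun i hi => hold (J - 1) (by omega) i hi (by omega),
        fun i hi hli => by omega, fun h => by omega⟩
  · exact Finset.sum_nonneg fun j hj => Finset.sum_nonneg fun k _ =>
      hT2 j (Finset.mem_range.1 hj) k z (hcl hz)
  · have h1 : ∀ j < J, ∀ k, ∀ σ : ℝ, T j k σ 0 ≤ θ := by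
      intro j hj k σ
      have h2 := bar_zero (Pv := Ps j 0) (b := b j) (by rw [hP0]; positivity) (hb0 j)
      have h3 : Real.log (5 / b j) ≤ θ * N j := (hsc j hj).2.2.2.1
      have h4 : Sb o (ι j) k (ρ j) σ (b j / 2) 0 =
          √(Ps j 0 + (-(b j / 2)) ^ 2) - -(b j / 2) := by
        simp only [Sb, Ps, PiLp.zero_apply, mul_zero, zero_sub]
      simp only [T]
      rw [h4, inv_mul_le_iff₀ (hN0 j hj)]
      linarith
    have h7 : ∀ j ∈ Finset.range J, ∑ k ∈ Finset.univ.filter (Out j),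
        (T j k 1 0 + T j k (-1) 0) ≤ n * (2 * θ) := by
      intro j hj
      have hj' := Finset.mem_range.1 hj
      refine (Finset.sum_le_card_nsmul _ _ (2 * θ) fun k _ => by
        linarith [h1 j hj' k 1, h1 j hj' k (-1)]).trans ?_
      rw [nsmul_eq_mul]
      refine mul_le_mul_of_nonneg_right ?_ (by positivity)
      have := Finset.card_filter_le (Finset.univ : Finset (Fin n)) (Out j)
      rw [Finset.card_univ, Fintype.card_fin] at this
      exact_mod_cast this
    refine (Finset.sum_le_card_nsmul _ _ _ h7).trans ?_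
    rw [nsmul_eq_mul, Finset.card_range]
    have h8 : θ * (2 * J * n + 1) = η := by rw [hθ]; field_simp
    nlinarith
  · have hzC := hcl hz
    have hzD : z ∉ D₀ := not_mem_of_closure_comp hD₀o 0 hz hz'
    by_cases hG : Good z
    · refine Or.inr ?_
      by_cases hJ : ∀ k, |z k| < b J
      · refine Or.inl ?_
        obtain ⟨j, hj, hQ⟩ : ∃ j < J, Ps j z ≤ r j := by
          by_contra hcon
          push Not at hcon
          exact hzD ⟨hJ, hcon, hG⟩
        have hs0 : s j z = 0 := by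
          have h1 : Ps j z = r j := le_antisymm hQ (hzC.2 j hj)
          rw [hs, h1, hlogr, neg_div, div_self (hL0 j hj).ne', add_neg_cancel]
        obtain ⟨l, _, hl⟩ := hact z hG hJ
        have hjl : j = l := by
          rcases lt_trichotomy j l with h | h | h
          · have := hl.1 j h
            simp only [hs0] at this
            linarith
          · exact h
          · have := hl.2 j hj h
            simp only [hs0, zero_sub, abs_neg] at this
            linarith [le_abs_self (q j), hηq j hj]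
        subst hjl
        exact ⟨j, hj, hl, hs0⟩
      · push Not at hJ
        obtain ⟨k, hk⟩ := hJ
        exact Or.inr ⟨fun i hi => hfar z hG i hi k ((hbm i J hi.le).trans hk),
          fun i hi hi' => absurd hi (not_lt.2 hi'.le)⟩
    · refine Or.inl ?_
      simp only [Good] at hG
      push Not at hG
      obtain ⟨j, hj, k, ho, hX, hk⟩ := hG
      have h1 : ∀ σ : ℝ, σ * z k = |z k| → 1 ≤ T j k σ z := by
        intro σ hσ
        have h2 := bar_tube (t := σ * z k - b j / 2) (hPpos j hj z hzC) hX (hb0 j)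
          (by rw [hσ]; linarith)
        simp only [T]
        rw [le_inv_mul_iff₀ (hN0 j hj), mul_one]
        exact h2
      have h2 : 1 ≤ T j k 1 z + T j k (-1) z := by
        rcases abs_cases (z k) with h | h
        · exact (h1 1 (by rw [h.1]; ring)).trans
            (le_add_of_nonneg_right (hT0 j hj k (-1) (Or.inr rfl) z hzC))
        · exact (h1 (-1) (by rw [h.1]; ring)).trans
            (le_add_of_nonneg_left (hT0 j hj k 1 (Or.inl rfl) z hzC))
      calc (1 : ℝ) ≤ T j k 1 z + T j k (-1) z := h2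
        _ ≤ ∑ k ∈ Finset.univ.filter (Out j), (T j k 1 z + T j k (-1) z) :=
          Finset.single_le_sum (f := fun k => T j k 1 z + T j k (-1) z)
            (fun k _ => hT2 j hj k z hzC) (Finset.mem_filter.2 ⟨Finset.mem_univ _, ho⟩)
        _ ≤ K z :=
          Finset.single_le_sum (f := fun j => ∑ k ∈ Finset.univ.filter (Out j),
            (T j k 1 z + T j k (-1) z))
            (fun j hj => Finset.sum_nonneg fun k _ => hT2 j (Finset.mem_range.1 hj) k z hzC)
            (Finset.mem_range.2 hj)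

end Pool.Agent.Lib.MP_540347_an.S3
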