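import Pool.Agent.Lib.MP_540347_an.S3.Defs

set_option autoImplicit false

open Set InnerProductSpace Filter Topology

namespace Pool.Agent.Lib.MP_540347_an.S3

open Pool.Agent.Lib.MP_540347_an.SC

theorem P_cont {n : ℕ} (i₀ i₁ : Fin n) (t : ℝ) : Continuous (P i₀ i₁ t) := by
  unfold P
  fun_prop

theorem kl_P_sm {n : ℕ} (i₀ i₁ : Fin n) (t : ℝ) : ContDiff ℝ 2 (P i₀ i₁ t) := by
  unfold P
  fun_prop

theorem kl_quad (A b g s : ℝ) :
    HasDerivAt (fun s : ℝ => A + 2 * b * s + g * s ^ 2) (2 * b + 2 * g * s) s := by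
  have h1 := (((hasDerivAt_id s).const_mul (2 * b)).const_add A).add
    ((hasDerivAt_pow 2 s).const_mul g)
  refine h1.congr_deriv ?_
  simp
  ring

theorem kl_d1 {A b g L s : ℝ} (hs : A + 2 * b * s + g * s ^ 2 ≠ 0) :
    HasDerivAt (fun s : ℝ => 1 + Real.log ((A + 2 * b * s + g * s ^ 2) / 25) / L)
      ((2 * b + 2 * g * s) / (A + 2 * b * s + g * s ^ 2) / L) s := by
  have h1 := ((((kl_quad A b g s).div_const 25).log (div_ne_zero hs (by norm_num))).div_const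
    L).const_add 1
  refine h1.congr_deriv ?_
  congr 1
  field_simp

theorem kl_d2 {A b g L : ℝ} (hA : A ≠ 0) :
    deriv (deriv (fun s : ℝ => 1 + Real.log ((A + 2 * b * s + g * s ^ 2) / 25) / L)) 0 =
      (2 * g / A - 4 * b ^ 2 / A ^ 2) / L := by
  have h0 : A + 2 * b * 0 + g * 0 ^ 2 ≠ 0 := by simpa using hA
  have hq : HasDerivAt (fun s : ℝ => 2 * b + 2 * g * s) (2 * g) 0 := by
    have h1 := ((hasDerivAt_id (0 : ℝ)).const_mul (2 * g)).const_add (2 * b)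
    rw [mul_one] at h1
    exact h1
  have h1 : deriv (fun s : ℝ => 1 + Real.log ((A + 2 * b * s + g * s ^ 2) / 25) / L) =ᶠ[𝓝 0]
      fun s => (2 * b + 2 * g * s) / (A + 2 * b * s + g * s ^ 2) / L := by
    filter_upwards [(kl_quad A b g 0).continuousAt.eventually_ne h0] with s hs
    exact (kl_d1 hs).deriv
  have h2 := (hq.div (kl_quad A b g 0) h0).div_const L
  rw [h1.deriv_eq]
  refine h2.deriv.trans ?_
  congr 1
  simp
  field_simp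
  ring

theorem kl_sm {n : ℕ} (i₀ i₁ : Fin n) (t L : ℝ) {x : E n} (hx : P i₀ i₁ t x ≠ 0) :
    ContDiffAt ℝ 2 (sl i₀ i₁ t L) x := by
  unfold sl
  exact contDiffAt_const.add (((((kl_P_sm i₀ i₁ t).contDiffAt).div_const 25).log
    (div_ne_zero hx (by norm_num))).div_const L)

theorem kl_line {n : ℕ} (i₀ i₁ : Fin n) (t L : ℝ) (x v : E n) :
    (fun s : ℝ => sl i₀ i₁ t L (x + s • v)) = fun s : ℝ =>
      1 + Real.log ((P i₀ i₁ t x + 2 * (x i₀ * v i₀ + (x i₁ - t) * v i₁) * s +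
        (v i₀ ^ 2 + v i₁ ^ 2) * s ^ 2) / 25) / L := by
  funext s
  have h : P i₀ i₁ t (x + s • v) = P i₀ i₁ t x + 2 * (x i₀ * v i₀ + (x i₁ - t) * v i₁) * s +
      (v i₀ ^ 2 + v i₁ ^ 2) * s ^ 2 := by
    simp only [P, PiLp.add_apply, PiLp.smul_apply, smul_eq_mul]
    ring
  rw [sl, h]

/-- The logarithmic kernel of the plane is harmonic. -/
theorem harm_sl {n : ℕ} {i₀ i₁ : Fin n} (h01 : i₀ ≠ i₁) (t L : ℝ) {z : E n}
    (hz : 0 < P i₀ i₁ t z) : HarmonicAt (sl i₀ i₁ t L) z := by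
  refine ⟨kl_sm i₀ i₁ t L hz.ne', ?_⟩
  filter_upwards [(P_cont i₀ i₁ t).continuousAt.eventually_ne hz.ne'] with x hx
  rw [laplacian_eq_iteratedFDeriv_orthonormalBasis _ (EuclideanSpace.basisFun (Fin n) ℝ)]
  have key : ∀ i : Fin n, iteratedFDeriv ℝ 2 (sl i₀ i₁ t L) x
      ![EuclideanSpace.basisFun (Fin n) ℝ i, EuclideanSpace.basisFun (Fin n) ℝ i] =
      (if i₀ = i then (2 / P i₀ i₁ t x - 4 * x i₀ ^ 2 / P i₀ i₁ t x ^ 2) / L else 0) +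
      (if i₁ = i then (2 / P i₀ i₁ t x - 4 * (x i₁ - t) ^ 2 / P i₀ i₁ t x ^ 2) / L else 0) := by
    intro i
    rw [d2_line _ (kl_sm i₀ i₁ t L hx)]
    set v : E n := EuclideanSpace.basisFun (Fin n) ℝ i with hv
    have h2 : ∀ k, v k = if k = i then 1 else 0 := fun k => by
      simp [hv]
    rw [kl_line, kl_d2 hx, h2, h2]
    by_cases e0 : i₀ = i
    · subst e0
      simp [h01.symm]
    by_cases e1 : i₁ = i
    · subst e1
      simp [h01]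
    simp [e0, e1]
  simp only [key, Finset.sum_add_distrib, Finset.sum_ite_eq, Finset.mem_univ, if_true,
    Pi.zero_apply]
  have h3 : (x i₁ - t) ^ 2 = P i₀ i₁ t x - x i₀ ^ 2 := by
    simp [P]
  rw [h3, ← add_div]
  have h4 : 2 / P i₀ i₁ t x - 4 * x i₀ ^ 2 / P i₀ i₁ t x ^ 2 +
      (2 / P i₀ i₁ t x - 4 * (P i₀ i₁ t x - x i₀ ^ 2) / P i₀ i₁ t x ^ 2) = 0 := by
    field_simp
    ring
  rw [h4, zero_div]

theorem gr_sl {n : ℕ} {i₀ i₁ : Fin n} (h01 : i₀ ≠ i₁) (t L : ℝ) {z : E n}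
    (hz : 0 < P i₀ i₁ t z) : gr (sl i₀ i₁ t L) z = (2 / (L * P i₀ i₁ t z)) •
      (EuclideanSpace.single i₀ (z i₀) + EuclideanSpace.single i₁ (z i₁ - t)) := by
  have hd : DifferentiableAt ℝ (sl i₀ i₁ t L) z :=
    (kl_sm i₀ i₁ t L hz.ne').differentiableAt (by simp)
  ext i
  have h0 : P i₀ i₁ t z + 2 * (z i₀ * (EuclideanSpace.single i (1 : ℝ) : E n) i₀ +
      (z i₁ - t) * (EuclideanSpace.single i (1 : ℝ) : E n) i₁) * 0 +
      ((EuclideanSpace.single i (1 : ℝ) : E n) i₀ ^ 2 +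
        (EuclideanSpace.single i (1 : ℝ) : E n) i₁ ^ 2) * 0 ^ 2 ≠ 0 := by
    simpa using hz.ne'
  have h1 := (kl_d1 (L := L) h0).deriv
  have h2 : gr (sl i₀ i₁ t L) z i = fderiv ℝ (sl i₀ i₁ t L) z (EuclideanSpace.single i (1 : ℝ)) :=
    rfl
  rw [h2, ← hd.lineDeriv_eq_fderiv, lineDeriv, kl_line, h1]
  have hP := hz.ne'
  by_cases e0 : i = i₀
  · subst e0
    simp [h01, h01.symm]
    ring
  by_cases e1 : i = i₁
  · subst e1
    simp [h01, h01.symm]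
    ring
  simp [e0, e1, Ne.symm e0, Ne.symm e1]

theorem kl_norm {n : ℕ} {i₀ i₁ : Fin n} (h01 : i₀ ≠ i₁) (t : ℝ) (z : E n) :
    ‖(EuclideanSpace.single i₀ (z i₀) + EuclideanSpace.single i₁ (z i₁ - t) : E n)‖ =
      √(P i₀ i₁ t z) := by
  rw [← Real.sqrt_sq (norm_nonneg _), norm_add_sq_real]
  congr 1
  simp [P, EuclideanSpace.inner_single_left, h01]

theorem norm_gr_sl {n : ℕ} {i₀ i₁ : Fin n} (h01 : i₀ ≠ i₁) (t : ℝ) {L : ℝ} (hL : 0 < L) {z : E n}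
    (hz : 0 < P i₀ i₁ t z) : ‖gr (sl i₀ i₁ t L) z‖ = 2 / (L * √(P i₀ i₁ t z)) := by
  rw [gr_sl h01 t L hz, norm_smul, kl_norm h01, Real.norm_eq_abs, abs_of_pos (by positivity)]
  have h1 : 0 < √(P i₀ i₁ t z) := Real.sqrt_pos.2 hz
  have h2 := Real.mul_self_sqrt hz.le
  obtain ⟨r, hr⟩ : ∃ r, r = √(P i₀ i₁ t z) := ⟨_, rfl⟩
  rw [← hr] at h1 h2 ⊢
  rw [← h2]
  field_simp

theorem inner_gr_sl {n : ℕ} {i₀ i₁ i₂ : Fin n} (h01 : i₀ ≠ i₁) (h02 : i₀ ≠ i₂) (h12 : i₁ ≠ i₂)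
    (t t' : ℝ) {L L' η : ℝ} (hL : 0 < L) (hL' : 0 < L') {z : E n} (hz : 0 < P i₀ i₁ t z)
    (hz' : 0 < P i₀ i₂ t' z) (hη : |z i₀| ≤ η * √(P i₀ i₂ t' z)) :
    |inner ℝ (gr (sl i₀ i₁ t L) z) (gr (sl i₀ i₂ t' L') z)| ≤
      η * (‖gr (sl i₀ i₁ t L) z‖ * ‖gr (sl i₀ i₂ t' L') z‖) := by
  rw [gr_sl h01 t L hz, gr_sl h02 t' L' hz', norm_smul, norm_smul, kl_norm h01, kl_norm h02,
    real_inner_smul_left, real_inner_smul_right, Real.norm_eq_abs, Real.norm_eq_abs, abs_mul,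
    abs_mul]
  have h1 : inner ℝ (EuclideanSpace.single i₀ (z i₀) + EuclideanSpace.single i₁ (z i₁ - t) : E n)
      (EuclideanSpace.single i₀ (z i₀) + EuclideanSpace.single i₂ (z i₂ - t') : E n) =
      z i₀ * z i₀ := by
    simp [inner_add_left, EuclideanSpace.inner_single_left, h01.symm, h02, h12]
  have h2 : |z i₀| ≤ √(P i₀ i₁ t z) := by
    refine Real.abs_le_sqrt ?_
    unfold P
    nlinarith [sq_nonneg (z i₁ - t)]
  have h3 : |z i₀| * |z i₀| ≤ √(P i₀ i₁ t z) * (η * √(P i₀ i₂ t' z)) :=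
    mul_le_mul h2 hη (abs_nonneg _) (Real.sqrt_nonneg _)
  rw [h1, abs_mul]
  have h4 := mul_le_mul_of_nonneg_left h3
    (mul_nonneg (abs_nonneg (2 / (L * P i₀ i₁ t z))) (abs_nonneg (2 / (L' * P i₀ i₂ t' z))))
  calc _ = |2 / (L * P i₀ i₁ t z)| * |2 / (L' * P i₀ i₂ t' z)| * (|z i₀| * |z i₀|) := by ring
    _ ≤ _ := h4
    _ = _ := by ring

theorem norm_gr_sq {n : ℕ} (f : E n → ℝ) (z : E n) :
    ‖gr f z‖ ^ 2 = ∑ i : Fin n, fderiv ℝ f z (EuclideanSpace.single i (1 : ℝ)) ^ 2 := by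
  rw [EuclideanSpace.real_norm_sq_eq]
  rfl

theorem gr_aff {n J : ℕ} (q : ℕ → ℝ) (x₀ : ℝ) (α : ℕ → ℝ) {s : ℕ → E n → ℝ} {z : E n}
    (h : ∀ j < J, HarmonicAt (s j) z) :
    gr (fun x => aff J q x₀ α (fun i => s i x)) z = ∑ i ∈ Finset.range J, α i • gr (s i) z := by
  ext k
  have h1 : gr (fun x => aff J q x₀ α (fun i => s i x)) z k =
      fderiv ℝ (fun x => aff J q x₀ α (fun i => s i x)) z (EuclideanSpace.single k (1 : ℝ)) := rfl
  rw [h1, fderiv_aff q x₀ α h]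
  simp [gr]

theorem gr_mul {n : ℕ} (a : ℝ) {f : E n → ℝ} {z : E n} (h : HarmonicAt f z) :
    gr (fun x => a * f x) z = a • gr f z := by
  ext k
  have hd : DifferentiableAt ℝ f z := h.1.differentiableAt (by simp)
  have h1 : gr (fun x => a * f x) z k =
      fderiv ℝ (fun x => a * f x) z (EuclideanSpace.single k (1 : ℝ)) := rfl
  rw [h1, fderiv_const_mul hd]
  simp [gr]

end Pool.Agent.Lib.MP_540347_an.S3
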